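import Pool.Agent.Helper27.VF.Goals

/-!
# BT: extension of derivations with finite stabilizers (real modules)
-/

set_option autoImplicit false

namespace Pool.Agent.Helper48.BT

open Pool.Agent.Helper27.VF

universe u v

section

variable {A : Type u} [Group A] (B : Subgroup A) {Λ : Type u} (lam : A → Λ)

/-- Two elements are equivalent if the labels are in the same orbit of `B`. -/
def rel (H1 : ∀ b ∈ B, ∀ g g' : A, lam g = lam g' → lam (b * g) = lam (b * g')) : Setoid A where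
  r g g' := ∃ b : B, lam g' = lam (b * g)
  iseqv :=
    { refl := fun g => ⟨1, by simp⟩
      symm := by
        rintro g g' ⟨b, hb⟩
        refine ⟨b⁻¹, ?_⟩
        have := H1 (b⁻¹ : B) (b⁻¹ : B).2 _ _ hb
        rw [this]
        simp
      trans := by
        rintro g g' g'' ⟨b, hb⟩ ⟨b', hb'⟩
        refine ⟨b' * b, ?_⟩
        rw [hb', H1 b' b'.2 _ _ hb]
        simp [mul_assoc] }

/-- The stabilizer of a label. -/
def stab (H1 : ∀ b ∈ B, ∀ g g' : A, lam g = lam g' → lam (b * g) = lam (b * g')) (r : A) :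
    Subgroup B where
  carrier := {b | lam ((b : A) * r) = lam r}
  one_mem' := by simp
  mul_mem' := by
    intro a b ha hb
    change lam (((a * b : B) : A) * r) = lam r
    rw [Subgroup.coe_mul, mul_assoc, H1 a a.2 _ _ hb]
    exact ha
  inv_mem' := by
    intro a ha
    change lam (((a⁻¹ : B) : A) * r) = lam r
    have h := H1 (a⁻¹ : B) (a⁻¹ : B).2 _ _ (show lam ((a : A) * r) = lam r from ha)
    rw [← h]
    simp

theorem mem_stab (H1 : ∀ b ∈ B, ∀ g g' : A, lam g = lam g' → lam (b * g) = lam (b * g')) (r : A)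
    (b : B) : b ∈ stab B lam H1 r ↔ lam ((b : A) * r) = lam r := Iff.rfl

/-- The general form: `C₀ r` is a value at the representative `r`. -/
theorem exists_C_of (H1 : ∀ b ∈ B, ∀ g g' : A, lam g = lam g' → lam (b * g) = lam (b * g'))
    {M : Type v} [AddCommGroup M] [DistribMulAction A M] (f : B → M) (hf : IsDerOn B f)
    (h0 : ∀ r : A, ∃ c : M, ∀ t ∈ stab B lam H1 r, f t + (t : A) • c = c) :
    ∃ C : A → M, (∀ g g', lam g = lam g' → C g = C g') ∧
      ∀ (b : B) (g : A), C (b * g) = f b + (b : A) • C g := by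
  classical
  choose C₀ hC₀ using h0
  let s : Setoid A := rel B lam H1
  let rep : A → A := fun g => (Quotient.mk s g).out
  have hrep : ∀ g, ∃ b : B, lam g = lam (b * rep g) := fun g => Quotient.mk_out (s := s) g
  choose β hβ using hrep
  have hval : ∀ (b b' : B) (r : A), lam (b * r) = lam (b' * r) →
      f b + (b : A) • C₀ r = f b' + (b' : A) • C₀ r := by
    intro b b' r h
    have h1 := H1 (b⁻¹ : B) (b⁻¹ : B).2 _ _ h
    have h2 : b⁻¹ * b' ∈ stab B lam H1 r := by
      rw [mem_stab, Subgroup.coe_mul, mul_assoc, ← h1]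
      simp
    have h3 := hC₀ r _ h2
    have h4 : f b' = f b + (b : A) • f (b⁻¹ * b') := by
      rw [← hf, mul_inv_cancel_left]
    have h5 : (b' : A) = (b : A) * ((b⁻¹ * b' : B) : A) := by simp
    rw [h4, h5, mul_smul, add_assoc, ← smul_add, h3]
  have hrepeq : ∀ (b : B) (g g' : A), lam g' = lam (b * g) → rep g = rep g' := by
    intro b g g' h
    change (Quotient.mk s g).out = (Quotient.mk s g').out
    congr 1
    exact Quotient.sound ⟨b, h⟩
  refine ⟨fun g => f (β g) + (β g : A) • C₀ (rep g), ?_, ?_⟩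
  · intro g g' h
    have h1 : rep g = rep g' := hrepeq 1 g g' (by simp [h])
    change f (β g) + (β g : A) • C₀ (rep g) = f (β g') + (β g' : A) • C₀ (rep g')
    rw [← h1]
    apply hval
    rw [← hβ g, h1, ← hβ g', h]
  · intro b g
    have h1 : rep g = rep (b * g) := hrepeq b g (b * g) rfl
    change f (β (b * g)) + (β (b * g) : A) • C₀ (rep (b * g)) =
      f b + (b : A) • (f (β g) + (β g : A) • C₀ (rep g))
    rw [← h1]
    have h2 : f (β (b * g)) + (β (b * g) : A) • C₀ (rep g) =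
        f (b * β g) + ((b * β g : B) : A) • C₀ (rep g) := by
      apply hval
      have h3 := hβ (b * g)
      rw [← h1] at h3
      rw [← h3]
      have := H1 b b.2 _ _ (hβ g)
      rw [this]
      simp [mul_assoc]
    rw [h2, hf, Subgroup.coe_mul, mul_smul, smul_add, add_assoc]

/-- Averaging over finite stabilizers. -/
theorem exists_C (H1 : ∀ b ∈ B, ∀ g g' : A, lam g = lam g' → lam (b * g) = lam (b * g'))
    (H2 : ∀ g : A, {b : A | b ∈ B ∧ lam (b * g) = lam g}.Finite)
    {M : Type v} [AddCommGroup M] [Module ℝ M] [DistribMulAction A M]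
    (hlin : ∀ (a : A) (r : ℝ) (m : M), a • (r • m) = r • (a • m))
    (f : B → M) (hf : IsDerOn B f) :
    ∃ C : A → M, (∀ g g', lam g = lam g' → C g = C g') ∧
      ∀ (b : B) (g : A), C (b * g) = f b + (b : A) • C g := by
  classical
  apply exists_C_of B lam H1 f hf
  intro r
  have hfin : Finite (stab B lam H1 r) := by
    have h := (H2 r).to_subtype
    exact Finite.of_injective
      (fun b : stab B lam H1 r =>
        (⟨((b : B) : A), (b : B).2, b.2⟩ : {b : A | b ∈ B ∧ lam (b * r) = lam r}))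
      (fun b b' h => Subtype.ext (Subtype.ext (congrArg (fun x => x.1) h)))
  have := Fintype.ofFinite (stab B lam H1 r)
  let N : ℝ := Fintype.card (stab B lam H1 r)
  have hN : N ≠ 0 := by
    have hc : Fintype.card (stab B lam H1 r) ≠ 0 := Fintype.card_ne_zero
    exact Nat.cast_ne_zero.2 hc
  refine ⟨N⁻¹ • ∑ s : stab B lam H1 r, f s, ?_⟩
  intro t ht
  have h1 : ∀ s : stab B lam H1 r, (t : A) • f s = f (t * s) - f t := by
    intro s
    rw [hf]
    abel
  have h2 : ((t : A)) • (∑ s : stab B lam H1 r, f s)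
      = (∑ s : stab B lam H1 r, f s) - N • f t := by
    rw [Finset.smul_sum, Finset.sum_congr rfl fun s _ => h1 s, Finset.sum_sub_distrib,
      Finset.sum_const, Finset.card_univ]
    congr 1
    · exact Equiv.sum_comp (Equiv.mulLeft (⟨t, ht⟩ : stab B lam H1 r))
        (fun s : stab B lam H1 r => f (s : B))
    · exact (Nat.cast_smul_eq_nsmul ℝ _ _).symm
  rw [hlin, h2, smul_sub, smul_smul, inv_mul_cancel₀ hN, one_smul]
  abel

/-- The derivation of a function `C`. -/
theorem der_of_C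
    (H3 : ∀ x y : A, {q : A ⧸ B | ∃ g : A, (g : A ⧸ B) = q ∧
      lam (g⁻¹ * x) ≠ lam (g⁻¹ * y)}.Finite)
    (H4 : ∀ b ∈ B, ∀ g : A, g ∉ B → lam (g⁻¹ * b) = lam g⁻¹)
    {M : Type v} [AddCommGroup M] [DistribMulAction A M] (f : B → M)
    (C : A → M) (hC1 : ∀ g g', lam g = lam g' → C g = C g')
    (hC2 : ∀ (b : B) (g : A), C (b * g) = f b + (b : A) • C g) :
    ∃ δ : A → M, IsDer δ ∧ (∀ b : B, δ b = f b) ∧
      ∀ x : A, x ∉ B → (∀ g : A, g ∉ B → x⁻¹ * g ∉ B → lam (g⁻¹ * x) = lam g⁻¹) →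
        δ x = C x - x • C x⁻¹ := by
  classical
  let T : A → A → A → M := fun g x y => g • C (g⁻¹ * y) - g • C (g⁻¹ * x)
  have hE : ∀ (g : A) (b : B) (x : A), (g * b) • C ((g * b)⁻¹ * x) =
      g • (b : A) • f b⁻¹ + g • C (g⁻¹ * x) := by
    intro g b x
    have h1 : (g * b)⁻¹ * x = ((b⁻¹ : B) : A) * (g⁻¹ * x) := by
      simp [mul_assoc]
    rw [h1, hC2, mul_smul, smul_add, smul_add]
    congr 2
    simp [← mul_smul]
  have hT : ∀ (g g' x y : A), (g : A ⧸ B) = (g' : A ⧸ B) → T g x y = T g' x y := by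
    intro g g' x y h
    have h1 : g⁻¹ * g' ∈ B := QuotientGroup.eq.1 h
    have h2 : g' = g * ((⟨g⁻¹ * g', h1⟩ : B) : A) := by simp
    rw [h2]
    change _ = (g * _) • C ((g * _)⁻¹ * y) - (g * _) • C ((g * _)⁻¹ * x)
    rw [hE, hE]
    simp only [T]
    abel
  have hT0 : ∀ (g x y : A), lam (g⁻¹ * x) = lam (g⁻¹ * y) → T g x y = 0 := by
    intro g x y h
    simp only [T]
    rw [hC1 _ _ h, sub_self]
  have hfin : ∀ x y : A, (Function.support fun q : A ⧸ B => T q.out x y).Finite := by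
    intro x y
    refine (H3 x y).subset ?_
    intro q hq
    refine ⟨q.out, QuotientGroup.out_eq' q, ?_⟩
    intro h
    exact hq (hT0 _ _ _ h)
  let φ : A → A → M := fun x y => ∑ᶠ q : A ⧸ B, T q.out x y
  have hadd : ∀ x y z, φ x y + φ y z = φ x z := by
    intro x y z
    change (∑ᶠ q : A ⧸ B, T q.out x y) + (∑ᶠ q : A ⧸ B, T q.out y z) = ∑ᶠ q : A ⧸ B, T q.out x z
    rw [← finsum_add_distrib (hfin x y) (hfin y z)]
    refine finsum_congr fun q => ?_
    simp only [T]
    abel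
  have hsmul : ∀ z x y, φ (z * x) (z * y) = z • φ x y := by
    intro z x y
    change (∑ᶠ q : A ⧸ B, T q.out (z * x) (z * y)) = z • ∑ᶠ q : A ⧸ B, T q.out x y
    have h1 : z • (∑ᶠ q : A ⧸ B, T q.out x y) = ∑ᶠ q : A ⧸ B, z • T q.out x y :=
      (DistribSMul.toAddMonoidHom M z).map_finsum (hfin x y)
    rw [h1]
    rw [← finsum_comp_equiv (MulAction.toPerm (z⁻¹ : A) : Equiv.Perm (A ⧸ B))
      (f := fun q : A ⧸ B => z • T q.out x y)]
    refine finsum_congr fun q => ?_
    have h2 : T ((MulAction.toPerm (z⁻¹ : A) : Equiv.Perm (A ⧸ B)) q).out x y =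
        T (z⁻¹ * q.out) x y := by
      refine hT _ _ _ _ ?_
      rw [QuotientGroup.out_eq']
      change z⁻¹ • q = _
      conv_lhs => rw [← QuotientGroup.out_eq' q]
      rfl
    rw [h2]
    simp only [T]
    rw [smul_sub, ← mul_smul, ← mul_smul]
    simp [mul_assoc]
  have hδ : IsDer (fun x => φ 1 x) := by
    intro x y
    change φ 1 (x * y) = φ 1 x + x • φ 1 y
    rw [← hsmul, ← hadd 1 x (x * y), mul_one]
  have hB : ∀ b : B, φ 1 b = f b + (b : A) • C 1 - C 1 := by
    intro b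
    change (∑ᶠ q : A ⧸ B, T q.out 1 b) = _
    rw [finsum_eq_single _ ((1 : A) : A ⧸ B)]
    · have h1 : T (((1 : A) : A ⧸ B)).out 1 b = T 1 1 b := hT _ _ _ _ (QuotientGroup.out_eq' _)
      rw [h1]
      simp only [T]
      have h2 := hC2 b 1
      rw [mul_one] at h2
      simp [h2]
    · intro q hq
      refine hT0 _ _ _ ?_
      have h3 : q.out ∉ B := by
        intro h
        apply hq
        rw [← QuotientGroup.out_eq' q]
        exact QuotientGroup.eq.2 (by simpa using B.inv_mem h)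
      rw [mul_one]
      exact (H4 b b.2 _ h3).symm
  have hX : ∀ x : A, x ∉ B → (∀ g : A, g ∉ B → x⁻¹ * g ∉ B → lam (g⁻¹ * x) = lam g⁻¹) →
      φ 1 x = C x - C 1 + (x • C 1 - x • C x⁻¹) := by
    intro x hx hxg
    change (∑ᶠ q : A ⧸ B, T q.out 1 x) = _
    have hne : ((1 : A) : A ⧸ B) ≠ (x : A ⧸ B) := by
      intro h
      have := QuotientGroup.eq.1 h
      simp only [inv_one, one_mul] at this
      exact hx this
    have hsup : (Function.support fun q : A ⧸ B => T q.out 1 x) ⊆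
        (({((1 : A) : A ⧸ B), (x : A ⧸ B)} : Finset (A ⧸ B)) : Set (A ⧸ B)) := by
      intro q hq
      by_contra hcon
      simp only [Finset.coe_insert, Finset.coe_singleton, Set.mem_insert_iff,
        Set.mem_singleton_iff, not_or] at hcon
      apply hq
      refine hT0 _ _ _ ?_
      rw [mul_one]
      refine (hxg _ ?_ ?_).symm
      · intro h
        apply hcon.1
        rw [← QuotientGroup.out_eq' q]
        exact QuotientGroup.eq.2 (by simpa using B.inv_mem h)
      · intro h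
        apply hcon.2
        rw [← QuotientGroup.out_eq' q]
        refine (QuotientGroup.eq.2 ?_).symm
        exact h
    rw [finsum_eq_sum_of_support_subset _ hsup, Finset.sum_pair hne]
    have h1 : T (((1 : A) : A ⧸ B)).out 1 x = T 1 1 x := hT _ _ _ _ (QuotientGroup.out_eq' _)
    have h2 : T ((x : A ⧸ B)).out 1 x = T x 1 x := hT _ _ _ _ (QuotientGroup.out_eq' _)
    rw [h1, h2]
    simp [T]
  refine ⟨fun x => φ 1 x - (x • C 1 - C 1), ?_, ?_, ?_⟩
  · intro x y
    have h := hδ x y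
    change φ 1 (x * y) = φ 1 x + x • φ 1 y at h
    change φ 1 (x * y) - ((x * y) • C 1 - C 1) =
      φ 1 x - (x • C 1 - C 1) + x • (φ 1 y - (y • C 1 - C 1))
    rw [h, smul_sub, smul_sub, mul_smul]
    abel
  · intro b
    change φ 1 b - ((b : A) • C 1 - C 1) = f b
    rw [hB]
    abel
  · intro x hx hxg
    change φ 1 x - (x • C 1 - C 1) = _
    rw [hX x hx hxg]
    abel

end

/-- **DER'.** Extension of derivations into real modules, finite stabilizers. -/
theorem der {A : Type u} [Group A] (B : Subgroup A) {Λ : Type u} (lam : A → Λ)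
    (H1 : ∀ b ∈ B, ∀ g g' : A, lam g = lam g' → lam (b * g) = lam (b * g'))
    (H2 : ∀ g : A, {b : A | b ∈ B ∧ lam (b * g) = lam g}.Finite)
    (H3 : ∀ x y : A, {q : A ⧸ B | ∃ g : A, (g : A ⧸ B) = q ∧
      lam (g⁻¹ * x) ≠ lam (g⁻¹ * y)}.Finite)
    (H4 : ∀ b ∈ B, ∀ g : A, g ∉ B → lam (g⁻¹ * b) = lam g⁻¹)
    {M : Type v} [AddCommGroup M] [Module ℝ M] [DistribMulAction A M]
    (hlin : ∀ (a : A) (r : ℝ) (m : M), a • (r • m) = r • (a • m))
    (f : B → M) (hf : IsDerOn B f) :
    ∃ δ : A → M, IsDer δ ∧ ∀ b : B, δ b = f b := by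
  obtain ⟨C, hC1, hC2⟩ := exists_C B lam H1 H2 hlin f hf
  obtain ⟨δ, h1, h2, -⟩ := der_of_C B lam H3 H4 f C hC1 hC2
  exact ⟨δ, h1, h2⟩

/-- **DEX'.** Derivations which vanish on `B`, with values of invariant vectors at `x`. -/
theorem dex {A : Type u} [Group A] (B : Subgroup A) {Λ : Type u} (lam : A → Λ)
    (H1 : ∀ b ∈ B, ∀ g g' : A, lam g = lam g' → lam (b * g) = lam (b * g'))
    (H2 : ∀ g : A, {b : A | b ∈ B ∧ lam (b * g) = lam g}.Finite)
    (H3 : ∀ x y : A, {q : A ⧸ B | ∃ g : A, (g : A ⧸ B) = q ∧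
      lam (g⁻¹ * x) ≠ lam (g⁻¹ * y)}.Finite)
    (H4 : ∀ b ∈ B, ∀ g : A, g ∉ B → lam (g⁻¹ * b) = lam g⁻¹)
    (x : A) (hx : x ∉ B)
    (hxg : ∀ g : A, g ∉ B → x⁻¹ * g ∉ B → lam (g⁻¹ * x) = lam g⁻¹) :
    ∃ F : Subgroup A, (F : Set A).Finite ∧ F ≤ B ∧
      ((∀ (M : Type v) [AddCommGroup M] [DistribMulAction A M] (m : M), (∀ a ∈ F, a • m = m) →
        ∃ δ : A → M, IsDer δ ∧ (∀ b ∈ B, δ b = 0) ∧ δ x = m) ∨
      ∃ y : A, y ∉ B ∧
        ∀ (M : Type v) [AddCommGroup M] [DistribMulAction A M] (m : M), (∀ a ∈ F, a • m = m) →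
          ∃ δ : A → M, IsDer δ ∧ (∀ b ∈ B, δ b = 0) ∧ δ x = m - y • m) := by
  classical
  refine ⟨(stab B lam H1 x).map B.subtype, ?_, ?_, ?_⟩
  · refine (H2 x).subset ?_
    rintro _ ⟨b, hb, rfl⟩
    exact ⟨b.2, hb⟩
  · rintro _ ⟨b, -, rfl⟩
    exact b.2
  -- the function `C`
  have key : ∀ (M : Type v) [AddCommGroup M] [DistribMulAction A M] (m : M),
      (∀ a ∈ (stab B lam H1 x).map B.subtype, a • m = m) →
      ∃ C : A → M, (∀ g g', lam g = lam g' → C g = C g') ∧
        (∀ (b : B) (g : A), C (b * g) = 0 + (b : A) • C g) ∧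
        (∀ (b : B) (g : A), lam g = lam (b * x) → C g = (b : A) • m) ∧
        (∀ g : A, (¬ ∃ b : B, lam g = lam (b * x)) → C g = 0) := by
    intro M _ _ m hm
    have huniq : ∀ b b' : B, lam ((b : A) * x) = lam ((b' : A) * x) →
        (b : A) • m = (b' : A) • m := by
      intro b b' h
      have h1 := H1 (b⁻¹ : B) (b⁻¹ : B).2 _ _ h
      have h2 : b⁻¹ * b' ∈ stab B lam H1 x := by
        rw [mem_stab, Subgroup.coe_mul, mul_assoc, ← h1]
        simp
      have h3 := hm _ ⟨_, h2, rfl⟩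
      have h5 : (b' : A) = (b : A) * ((b⁻¹ * b' : B) : A) := by simp
      rw [h5, mul_smul]
      congr 1
      exact h3.symm
    let C : A → M := fun g => if h : ∃ b : B, lam g = lam (b * x) then ((h.choose : B) : A) • m
      else 0
    have hCpos : ∀ (b : B) (g : A), lam g = lam (b * x) → C g = (b : A) • m := by
      intro b g h
      have hex : ∃ b : B, lam g = lam (b * x) := ⟨b, h⟩
      change (if h : ∃ b : B, lam g = lam (b * x) then ((h.choose : B) : A) • m else 0) = _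
      rw [dif_pos hex]
      apply huniq
      rw [← hex.choose_spec, h]
    have hCneg : ∀ g : A, (¬ ∃ b : B, lam g = lam (b * x)) → C g = 0 := by
      intro g h
      change (if h : ∃ b : B, lam g = lam (b * x) then ((h.choose : B) : A) • m else 0) = _
      rw [dif_neg h]
    refine ⟨C, ?_, ?_, hCpos, hCneg⟩
    · intro g g' h
      by_cases hex : ∃ b : B, lam g = lam (b * x)
      · obtain ⟨b, hb⟩ := hex
        rw [hCpos b g hb, hCpos b g' (h.symm.trans hb)]
      · rw [hCneg g hex, hCneg g']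
        rintro ⟨b, hb⟩
        exact hex ⟨b, h.trans hb⟩
    · intro b g
      rw [zero_add]
      by_cases hex : ∃ b : B, lam g = lam (b * x)
      · obtain ⟨c, hc⟩ := hex
        rw [hCpos c g hc, hCpos (b * c) (b * g), Subgroup.coe_mul, mul_smul]
        rw [H1 b b.2 _ _ hc, Subgroup.coe_mul, mul_assoc]
      · rw [hCneg g hex, hCneg (b * g), smul_zero]
        rintro ⟨c, hc⟩
        apply hex
        refine ⟨b⁻¹ * c, ?_⟩
        have h1 := H1 (b⁻¹ : B) (b⁻¹ : B).2 _ _ hc
        rw [← mul_assoc, ← Subgroup.coe_mul, inv_mul_cancel, Subgroup.coe_one, one_mul] at h1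
        rw [h1, Subgroup.coe_mul, mul_assoc]
  have hder : ∀ (M : Type v) [AddCommGroup M] [DistribMulAction A M] (m : M),
      (∀ a ∈ (stab B lam H1 x).map B.subtype, a • m = m) →
      ∃ (C : A → M) (δ : A → M), IsDer δ ∧ (∀ b ∈ B, δ b = 0) ∧ δ x = m - x • C x⁻¹ ∧
        (∀ (b : B) (g : A), lam g = lam (b * x) → C g = (b : A) • m) ∧
        (∀ g : A, (¬ ∃ b : B, lam g = lam (b * x)) → C g = 0) := by
    intro M _ _ m hm
    obtain ⟨C, c1, c2, c3, c4⟩ := key M m hm
    obtain ⟨δ, d1, d2, d3⟩ := der_of_C B lam H3 H4 (fun _ : B => (0 : M)) C c1 c2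
    refine ⟨C, δ, d1, fun b hb => d2 ⟨b, hb⟩, ?_, c3, c4⟩
    rw [d3 x hx hxg, c3 1 x (by simp)]
    simp
  by_cases hex : ∃ b : B, lam x⁻¹ = lam (b * x)
  · right
    obtain ⟨b, hb⟩ := hex
    refine ⟨x * b, ?_, ?_⟩
    · intro h
      apply hx
      have := B.mul_mem h (B.inv_mem b.2)
      rwa [mul_inv_cancel_right] at this
    · intro M _ _ m hm
      obtain ⟨C, δ, d1, d2, d3, c3, -⟩ := hder M m hm
      refine ⟨δ, d1, d2, ?_⟩
      rw [d3, c3 b x⁻¹ hb, mul_smul]
  · left
    intro M _ _ m hm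
    obtain ⟨C, δ, d1, d2, d3, -, c4⟩ := hder M m hm
    refine ⟨δ, d1, d2, ?_⟩
    rw [d3, c4 x⁻¹ hex, smul_zero, sub_zero]

end Pool.Agent.Helper48.BT
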