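import Pool.Agent.Helper27.VF.Goals

/-!
# BT: components outside the torso have finitely many neighbours (stabilizers finite)
-/

set_option autoImplicit false

namespace Pool.Agent.Helper48.BT

open Pool.Agent.Helper27.VF

universe u

variable {A W : Type u} [Group A] [MulAction A W] {G G₀ : SimpleGraph W} {w : W}
  {p : Ultrafilter W} {k : ℕ}

/-- The proof of TOC with finite stabilizers. -/
theorem toc_core (hS : Stg A G G₀ w p)
    (hpth : ∀ x y : W, {c | c ∈ SS A G p k ∧ x ∉ c.2 ∧ y ∉ c.1}.Finite)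
    (hcov : ∃ F : Set W, F.Finite ∧ F ⊆ Kp A G p k ∧
      ∀ x ∈ Kp A G p k, ∃ g ∈ BB A G p k, ∃ f ∈ F, g • f = x)
    (hB : ∀ g ∈ BB A G p k, ∀ d ∈ DD A G p k, tr g d ∈ DD A G p k)
    (hst : ∀ d ∈ DD A G p k, {g : A | tr g d = d}.Finite) : Nar G (Kp A G p k) := by
  intro z hz
  obtain ⟨F, hF, hFK, hcov⟩ := hcov
  have hz1 : ∃ d ∈ DD A G p k, z ∈ d.2 := by
    by_contra hcon
    push Not at hcon
    exact hz (Or.inl hcon)
  obtain ⟨d, hd, hzd⟩ := hz1
  have hdS : d ∈ SS A G p k := hd.1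
  have hdc : IsCut G d := hdS.1
  have hstay : ∀ z', Out G (Kp A G p k) z z' → z' ∈ d.2 := by
    intro z' hz'
    induction hz' with
    | refl => exact hzd
    | tail _ hbc ih =>
      obtain ⟨hadj, hnK⟩ := hbc
      rename_i b c _
      have hc1 : c ∉ d.1 := fun hc1 => hdc.no c hc1 b ih hadj.symm
      have hc2 : c ∉ sep d := fun hc2 => hnK (Or.inr ⟨d, hd, hc2⟩)
      by_contra hc3
      exact hc2 (mem_sep.2 ⟨hc1, hc3⟩)
  have hfin : {y | y ∈ Kp A G p k ∧ y ∈ d.2}.Finite := by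
    have hsub : {y | y ∈ Kp A G p k ∧ y ∈ d.2} ⊆
        ⋃ f ∈ F, ⋃ e ∈ {c | c ∈ SS A G p k ∧ w ∉ c.2 ∧ f ∉ c.1},
          {y | ∃ g : A, g • f = y ∧ tr g⁻¹ d = e} := by
      rintro y ⟨hyK, hyd⟩
      obtain ⟨g, hg, f, hf, hgf⟩ := hcov y hyK
      have he : tr g⁻¹ d ∈ DD A G p k := hB g⁻¹ ((BB A G p k).inv_mem hg) d hd
      have hec : IsCut G (tr g⁻¹ d) := he.1.1
      have hf2 : f ∈ (tr g⁻¹ d).2 := by
        change (g⁻¹)⁻¹ • f ∈ d.2
        rw [inv_inv, hgf]
        exact hyd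
      simp only [Set.mem_iUnion]
      refine ⟨f, hf, tr g⁻¹ d, ⟨he.1, ?_, fun hf1 => hec.disj f hf1 hf2⟩, g, hgf, rfl⟩
      intro hw
      have hw' : (1 : A) • w ∈ (tr g⁻¹ d).2 := by rwa [one_smul]
      have := fact1' hS hec hw'
      exact (inn_snd hS hec).1 this he.2.1
    refine Set.Finite.subset ?_ hsub
    refine hF.biUnion fun f _ => ?_
    refine (hpth w f).biUnion fun e _ => ?_
    by_cases hne : ∃ g₀ : A, tr g₀⁻¹ d = e
    · obtain ⟨g₀, hg₀⟩ := hne
      refine ((hst d hd).image (fun g : A => (g⁻¹ * g₀) • f)).subset ?_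
      rintro y ⟨g, hgy, hge⟩
      refine ⟨g₀ * g⁻¹, ?_, ?_⟩
      · change tr (g₀ * g⁻¹) d = d
        rw [← tr_tr, hge, ← hg₀, tr_tr, mul_inv_cancel, tr_one]
      · change ((g₀ * g⁻¹)⁻¹ * g₀) • f = y
        rw [mul_inv_rev, inv_inv, inv_mul_cancel_right, hgy]
    · refine (Set.finite_empty).subset ?_
      rintro y ⟨g, -, hge⟩
      exact hne ⟨g, hge⟩
  refine (hfin.union hdc.fin).subset ?_
  rintro y ⟨hyK, z', hz', hadj⟩
  have hz'2 := hstay z' hz'
  have hy1 : y ∉ d.1 := fun hy1 => hdc.no y hy1 z' hz'2 hadj.symm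
  by_cases hy2 : y ∈ d.2
  · exact Or.inl ⟨hyK, hy2⟩
  · exact Or.inr (mem_sep.2 ⟨hy1, hy2⟩)

/-- Stabilizers of minimal cuts are finite. -/
theorem stab_finite (hS : Stg A G G₀ w p) {d : Set W × Set W} (hd : d ∈ DD A G p k) :
    {g : A | tr g d = d}.Finite := by
  have hdc : IsCut G d := hd.1.1
  -- the separator is nonempty
  have hne : (sep d).Nonempty := by
    by_contra hcon
    rw [Set.not_nonempty_iff_eq_empty] at hcon
    obtain ⟨a, b, hab⟩ := hd.1.2.2
    obtain ⟨x, hx⟩ := inn_nonempty hS hab.1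
    obtain ⟨y, hy⟩ := inn_nonempty hS hab.2
    have hall : ∀ z, z ∈ d.1 ∨ z ∈ d.2 := by
      intro z
      by_contra hz
      push Not at hz
      have : z ∈ sep d := mem_sep.2 hz
      rw [hcon] at this
      exact this
    obtain ⟨q⟩ := hS.conn.preconnected x y
    have key : ∀ (u v : W), G₀.Walk u v → u ∈ d.1 → v ∈ d.1 := by
      intro u v q
      induction q with
      | nil => exact id
      | cons h _ ih =>
        intro hu
        apply ih
        rcases hall _ with h1 | h1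
        · exact h1
        · exact absurd (hS.le h) (hdc.no _ hu _ h1)
    exact hdc.disj y (key x y q hx) hy
  obtain ⟨x, hx⟩ := hne
  refine Set.Finite.of_finite_image (f := fun g : A => g • x) (hdc.fin.subset ?_) ?_
  · rintro _ ⟨g, hg, rfl⟩
    have h1 : g • x ∈ sep (tr g d) := by
      rw [mem_sep_tr, inv_smul_smul]
      exact hx
    have h2 : tr g d = d := hg
    rw [h2] at h1
    exact h1
  · intro g _ g' _ h
    have h1 : (g'⁻¹ * g) • x = x := by
      have h2 : g • x = g' • x := h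
      rw [mul_smul, h2, inv_smul_smul]
    have := hS.free _ _ h1
    rw [inv_mul_eq_one] at this
    exact this.symm

end Pool.Agent.Helper48.BT
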