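import Pool.Agent.Helper61.BT.Goals
import Pool.Agent.Helper48.BT.DER
import Pool.Agent.Helper48.BT.TOC

/-!
# BT: the packets TCB, DRB, DXB
-/

set_option autoImplicit false

namespace Pool.Agent.Helper48.BT

open Pool.Agent.Helper27.VF Pool.Agent.Helper38.VF Pool.Agent.Helper61.BT

universe u

/-- TCB -/
theorem tcb (h1 : PthStmt.{u}) (h2 : TabStmt.{u}) (h3 : OrbStmt.{u}) (h4 : FrbStmt.{u}) :
    TcbStmt.{u} := by
  intro A W _ _ G G₀ w p hS k hM
  exact toc_core hS (h1 A W G G₀ w p hS k hM) (h2 A W G G₀ w p hS k hM).2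
    (h3 A W G G₀ w p hS k hM).2.2.2
    (fun d hd => (h4 A W G G₀ w p hS k hM).2 d hd.1)

/-- DRB -/
theorem drb : DrbStmt.{u} := by
  intro A _ B Λ lam hlab M _ _ _ hlin f hf
  exact der B lam hlab.h1 hlab.h2 hlab.h3 hlab.h4 hlin f hf

/-- DXB -/
theorem dxb : DxbStmt.{u} := by
  intro A _ B Λ lam hlab x hx hxg
  obtain ⟨F, hF, hFB, h | ⟨y, hy, h⟩⟩ :=
    dex.{u, u} B lam hlab.h1 hlab.h2 hlab.h3 hlab.h4 x hx hxg
  · refine ⟨F, none, hF, fun y hy => by simp at hy, ?_⟩
    intro M _ _ _ _ v hv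
    exact h M v hv
  · refine ⟨F, some y, hF, ?_, ?_⟩
    · intro y' hy' hyF
      rw [Option.some.injEq] at hy'
      subst hy'
      exact hy (hFB hyF)
    · intro M _ _ _ _ v hv
      exact h M v hv

/-- The second part of FRB. -/
theorem stab_finite' {A W : Type u} [Group A] [MulAction A W] {G G₀ : SimpleGraph W} {w : W}
    {p : Ultrafilter W} {k : ℕ} (hS : Stg A G G₀ w p) {d : Set W × Set W} (hd : d ∈ SS A G p k) :
    {g : A | tr g d = d}.Finite := by
  have hdc : IsCut G d := hd.1
  have hne : (sep d).Nonempty := by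
    by_contra hcon
    rw [Set.not_nonempty_iff_eq_empty] at hcon
    obtain ⟨a, b, hab⟩ := hd.2.2
    obtain ⟨x, hx⟩ := inn_nonempty hS hab.1
    obtain ⟨y, hy⟩ := inn_nonempty hS hab.2
    have hall : ∀ z, z ∈ d.1 ∨ z ∈ d.2 := by
      intro z
      by_contra hz
      push Not at hz
      have : z ∈ sep d := mem_sep.2 hz
      rw [hcon] at this
      exact this
    obtain ⟨q⟩ := hS.conn.preconnected x y
    have key : ∀ (u v : W), G₀.Walk u v → u ∈ d.1 → v ∈ d.1 := by
      intro u v q
      induction q with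
      | nil => exact id
      | cons h _ ih =>
        intro hu
        apply ih
        rcases hall _ with h1 | h1
        · exact h1
        · exact absurd (hS.le h) (hdc.no _ hu _ h1)
    exact hdc.disj y (key x y q hx) hy
  obtain ⟨x, hx⟩ := hne
  refine Set.Finite.of_finite_image (f := fun g : A => g • x) (hdc.fin.subset ?_) ?_
  · rintro _ ⟨g, hg, rfl⟩
    have h1 : g • x ∈ sep (tr g d) := by
      rw [mem_sep_tr, inv_smul_smul]
      exact hx
    have h2 : tr g d = d := hg
    rw [h2] at h1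
    exact h1
  · intro g _ g' _ h
    have h1 : (g'⁻¹ * g) • x = x := by
      have h2 : g • x = g' • x := h
      rw [mul_smul, h2, inv_smul_smul]
    have := hS.free _ _ h1
    rw [inv_mul_eq_one] at this
    exact this.symm

end Pool.Agent.Helper48.BT
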